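import Pool.Agent.MP_5168f5_an.H42.Geo

/-! From the discrete estimate to the strong type bound for the maximal function. -/

namespace Pool.Agent.MP_5168f5_an.H42

open MeasureTheory Set Metric Pool.Agent.MP_5168f5_an.H19 Pool.Agent.MP_5168f5_an.H20
open scoped ENNReal

variable {m : ℕ}

theorem avg_pow {X : Type*} [MeasurableSpace X] (μ : Measure X) {F : X → ℝ≥0∞}
    (hF : Measurable F) {p : ℝ} (hp : 1 ≤ p) {S : Set X} {V t : ℝ≥0∞} (hV : μ S = V)
    (hV0 : V ≠ 0) (hVt : V ≠ ∞) (ht : t ≤ (∫⁻ y in S, F y ∂μ) / V) :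
    t ^ p * V ≤ ∫⁻ y in S, F y ^ p ∂μ := by
  have hp0 : 0 < p := by linarith
  have h1 := eLpNorm'_le_eLpNorm'_mul_rpow_measure_univ (μ := μ.restrict S) (f := F) one_pos hp
    hF.aestronglyMeasurable
  simp only [eLpNorm'_eq_lintegral_enorm, enorm_eq_self, ENNReal.rpow_one, div_one,
    Measure.restrict_apply_univ, hV] at h1
  rw [ENNReal.le_div_iff_mul_le (Or.inl hV0) (Or.inl hVt)] at ht
  have h2 := ENNReal.rpow_le_rpow (ht.trans h1) hp0.le
  rw [ENNReal.mul_rpow_of_nonneg _ _ hp0.le, ENNReal.mul_rpow_of_nonneg _ _ hp0.le,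
    ← ENNReal.rpow_mul, ← ENNReal.rpow_mul, one_div_mul_cancel hp0.ne', ENNReal.rpow_one,
    show (1 - 1 / p) * p = p - 1 by field_simp] at h2
  have h3 : V ^ p = V * V ^ (p - 1) := by
    conv_lhs => rw [show p = 1 + (p - 1) by ring, ENNReal.rpow_add _ _ hV0 hVt, ENNReal.rpow_one]
  rw [h3, ← mul_assoc] at h2
  exact (ENNReal.mul_le_mul_iff_left (ENNReal.rpow_pos (pos_iff_ne_zero.2 hV0) hVt).ne'
    (ENNReal.rpow_ne_top_of_nonneg (by linarith) hVt)).1 h2

theorem lintegral_biUnion_finset_le {X ι : Type*} [MeasurableSpace X] {μ : Measure X}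
    (S : Finset ι) (A : ι → Set X) (F : X → ℝ≥0∞) :
    ∫⁻ y in ⋃ i ∈ S, A i, F y ∂μ ≤ ∑ i ∈ S, ∫⁻ y in A i, F y ∂μ := by
  classical
  induction S using Finset.induction_on with
  | empty => simp
  | insert i S hi ih =>
    rw [Finset.set_biUnion_insert, Finset.sum_insert hi]
    exact (lintegral_union_le _ _ _).trans (add_le_add le_rfl ih)

theorem split_height (y a : ℝ≥0∞) (M : ℕ) (h : y < 2 ^ M * a) :
    y ≤ a + ∑ k ∈ Finset.range M, if 2 ^ k * a ≤ y then 2 ^ (k + 1) * a else 0 := by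
  induction M with
  | zero => simpa using h.le
  | succ M ih =>
    rw [Finset.sum_range_succ, ← add_assoc]
    by_cases h1 : y < 2 ^ M * a
    · exact le_add_right (ih h1)
    · rw [if_pos (not_lt.1 h1)]
      exact le_add_left h.le

theorem split_count (c M : ℕ) (h : c < 2 ^ M) :
    c ≤ ∑ j ∈ Finset.range M, if 2 ^ j ≤ c then 2 ^ (j + 1) else 0 := by
  induction M with
  | zero => omega
  | succ M ih =>
    rw [Finset.sum_range_succ]
    by_cases h1 : c < 2 ^ M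
    · exact le_add_right (ih h1)
    · rw [if_pos (not_lt.1 h1)]
      exact le_add_left h.le

theorem log_sq_le {η : ℝ} (hη : 0 < η) : ∃ C : ℝ, 0 < C ∧ ∀ Q L : ℕ, 0 < Q → 2 ^ L ≤ 2 * Q →
    ((L : ℝ) + 1) ^ 2 ≤ C * (Q : ℝ) ^ η := by
  have hl : 0 < Real.log 2 := Real.log_pos one_lt_two
  refine ⟨(1 + 2 / (η * Real.log 2)) ^ 2 * 2 ^ η, by positivity, fun Q L hQ h => ?_⟩
  have hQ1 : (1 : ℝ) ≤ Q := by exact_mod_cast hQ
  have h1 : (2 : ℝ) ^ L ≤ 2 * Q := by exact_mod_cast h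
  have h2 : L * Real.log 2 ≤ (2 * Q : ℝ) ^ (η / 2) / (η / 2) := by
    rw [← Real.log_pow]
    exact (Real.log_le_log (by positivity) h1).trans
      (Real.log_le_rpow_div (by positivity) (by positivity))
  have h3 : (1 : ℝ) ≤ (2 * Q : ℝ) ^ (η / 2) := Real.one_le_rpow (by linarith) (by positivity)
  have h4 : (L : ℝ) ≤ 2 / (η * Real.log 2) * (2 * Q : ℝ) ^ (η / 2) := by
    rw [← le_div_iff₀ hl] at h2
    refine h2.trans (le_of_eq ?_)
    field_simp
  calc ((L : ℝ) + 1) ^ 2 ≤ ((1 + 2 / (η * Real.log 2)) * (2 * Q : ℝ) ^ (η / 2)) ^ 2 := by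
        gcongr; linarith
    _ = _ := by
        rw [mul_pow, mul_assoc, ← Real.mul_rpow (by norm_num) (by positivity),
          ← Real.rpow_natCast ((2 * Q : ℝ) ^ (η / 2)), ← Real.rpow_mul (by positivity)]
        norm_num

theorem weak_of_gk {b q : ℝ} (hb : 1 ≤ b) (hK : GK m b q) {ε : ℝ} (hε : 0 < ε) :
    ∃ C : ℝ, 0 < C ∧ ∀ (Q l : ℕ) (i : Fin (m + 1)) (E : Finset ((Fin m → ℤ) × ℤ)), 0 < Q → 0 < l →
      ∃ D : Set (sphere (0 : EuclideanSpace ℝ (Fin (m + 1))) 1), MeasurableSet D ∧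
        volume.toSphere D ≤
          ENNReal.ofReal (C * (Q : ℝ) ^ ε / (l : ℝ) ^ q * (E.card : ℝ) ^ b) ∧
        ∀ e : sphere (0 : EuclideanSpace ℝ (Fin (m + 1))) 1, (∀ j, |e.1 j| ≤ |e.1 i|) →
          ∀ x s, l ≤ cnt E Q (x, slope e.1 i) s → e ∈ D := by
  obtain ⟨C, hC, h⟩ := net_of_gk hb hK hε
  refine ⟨C * ((m + 1) * 3 * 4 ^ (m + 1)), by positivity, fun Q l i E hQ hl => ?_⟩
  obtain ⟨G, h1, h2, h3⟩ := h Q l E hQ hl
  have hQp : (0 : ℝ) < Q := by exact_mod_cast hQ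
  refine ⟨⋃ g ∈ G, cap Q i g.2, G.measurableSet_biUnion fun g _ => measurableSet_cap _ _ _, ?_,
    fun e he x s hs => ?_⟩
  · refine (measure_biUnion_finset_le _ _).trans
      ((Finset.sum_le_sum fun g hg => toSphere_cap hQ i (h2 g hg)).trans ?_)
    rw [Finset.sum_const, nsmul_eq_mul, ← ENNReal.ofReal_natCast,
      ← ENNReal.ofReal_mul (Nat.cast_nonneg _)]
    refine ENNReal.ofReal_le_ofReal ((mul_le_mul_of_nonneg_right h1 (by positivity)).trans
      (le_of_eq ?_))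
    field_simp
  · obtain ⟨g, hg, h4⟩ := h3 (x, slope e.1 i) s hs (abs_slope_le he)
    exact mem_biUnion hg (mem_cap hQ he h4)

theorem level_card {Q : ℕ} (hQ : 0 < Q) (i : Fin (m + 1))
    {F : EuclideanSpace ℝ (Fin (m + 1)) → ℝ≥0∞} (hF : Measurable F) {p : ℝ} (hp : 1 ≤ p)
    {a : ℝ≥0∞} (ha0 : a ≠ 0) (hat : a ≠ ∞) (ha : ∫⁻ y, F y ^ p = a ^ p) (k : ℕ) :
    ∃ E : Finset ((Fin m → ℤ) × ℤ),
      (E.card : ℝ) ≤ (2 * Q : ℝ) ^ (m + 1) / ((2 : ℝ) ^ k) ^ p ∧
      ∀ z, z ∈ E ↔ 2 ^ k * a ≤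
        (∫⁻ y in box Q i z, F y) / ENNReal.ofReal ((2 * (6 / Q : ℝ)) ^ (m + 1)) := by
  have hQp : (0 : ℝ) < Q := by exact_mod_cast hQ
  have hp0 : 0 < p := by linarith
  set V := ENNReal.ofReal ((2 * (6 / Q : ℝ)) ^ (m + 1)) with hV
  have hV0 : V ≠ 0 := (ENNReal.ofReal_pos.2 (by positivity)).ne'
  set T := {z | 2 ^ k * a ≤ (∫⁻ y in box Q i z, F y) / V} with hT
  have hfin : ∀ E : Finset ((Fin m → ℤ) × ℤ), (E : Set _) ⊆ T →
      (E.card : ℝ) ≤ (2 * Q : ℝ) ^ (m + 1) / ((2 : ℝ) ^ k) ^ p := by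
    intro E hE
    have h1 : ∑ _z ∈ E, (2 ^ k * a) ^ p * V ≤ 13 ^ (m + 1) * a ^ p := by
      rw [← ha]
      exact (Finset.sum_le_sum fun z hz => avg_pow volume hF hp (volume_cube _ (by positivity))
        hV0 ENNReal.ofReal_ne_top (hE hz)).trans (sum_box_le hQ i E (hF.pow_const p))
    have h2 : ENNReal.ofReal (E.card * (((2 : ℝ) ^ k) ^ p * (2 * (6 / Q : ℝ)) ^ (m + 1))) * a ^ p ≤
        ENNReal.ofReal (13 ^ (m + 1)) * a ^ p := by
      rw [ENNReal.ofReal_mul (Nat.cast_nonneg _), ENNReal.ofReal_mul (by positivity), ← hV,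
        ← ENNReal.ofReal_rpow_of_pos (by positivity), ENNReal.ofReal_pow (by norm_num),
        ENNReal.ofReal_pow (by norm_num), ENNReal.ofReal_natCast, ENNReal.ofReal_ofNat,
        ENNReal.ofReal_ofNat]
      refine le_trans (le_of_eq ?_) h1
      rw [Finset.sum_const, nsmul_eq_mul, ENNReal.mul_rpow_of_nonneg _ _ hp0.le]
      ring
    have h3 := (ENNReal.ofReal_le_ofReal_iff (by positivity)).1
      ((ENNReal.mul_le_mul_iff_left (ENNReal.rpow_pos (pos_iff_ne_zero.2 ha0) hat).ne'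
        (ENNReal.rpow_ne_top_of_nonneg hp0.le hat)).1 h2)
    have h4 : (13 : ℝ) ^ (m + 1) ≤ (2 * Q : ℝ) ^ (m + 1) * (2 * (6 / Q : ℝ)) ^ (m + 1) := by
      rw [← mul_pow]
      gcongr
      rw [show (2 * Q : ℝ) * (2 * (6 / Q)) = 24 by field_simp; norm_num]
      norm_num
    rw [le_div_iff₀ (by positivity)]
    refine le_of_mul_le_mul_right ?_ (show (0 : ℝ) < (2 * (6 / Q : ℝ)) ^ (m + 1) by positivity)
    rw [mul_assoc]
    exact h3.trans h4
  have hTf : T.Finite := by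
    by_contra hinf
    obtain ⟨E, hE, hc⟩ := Set.Infinite.exists_subset_card_eq hinf
      (⌊(2 * Q : ℝ) ^ (m + 1) / ((2 : ℝ) ^ k) ^ p⌋₊ + 1)
    have := hfin E hE
    rw [hc] at this
    have h2 := Nat.lt_floor_add_one ((2 * Q : ℝ) ^ (m + 1) / ((2 : ℝ) ^ k) ^ p)
    push_cast at this
    linarith
  exact ⟨hTf.toFinset, hfin _ (by simp), fun z => by simp [hT]⟩

theorem term_le {b p C ε x y c Q : ℝ} (hb : 1 ≤ b) (hp : 0 < p) (hC : 0 < C) (hx : 0 < x)
    (hy : 0 < y) (hQ : 0 < Q) (hc0 : 0 ≤ c) (hc : c ≤ (2 * Q) ^ (m + 1) / x ^ p) :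
    x * y * (C * Q ^ ε / y ^ (p * b) * c ^ b) ^ (1 / (p * b)) ≤
      (C * (2 ^ (m + 1)) ^ b) ^ (1 / (p * b)) * Q ^ ((ε + (m + 1) * b) / (p * b)) := by
  have hq : (0 : ℝ) < p * b := by positivity
  have h1 : C * Q ^ ε / y ^ (p * b) * c ^ b ≤
      C * (2 ^ (m + 1)) ^ b * Q ^ (ε + (m + 1) * b) / (x * y) ^ (p * b) := by
    calc _ ≤ C * Q ^ ε / y ^ (p * b) * ((2 * Q) ^ (m + 1) / x ^ p) ^ b := by gcongr
      _ = _ := by
        rw [Real.div_rpow (by positivity) (by positivity),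
          ← Real.rpow_mul hx.le, mul_pow, Real.mul_rpow (by positivity) (by positivity),
          ← Real.rpow_natCast Q, ← Real.rpow_mul hQ.le, Real.mul_rpow hx.le hy.le,
          Real.rpow_add hQ]
        push_cast
        field_simp
  calc _ ≤ x * y * (C * (2 ^ (m + 1)) ^ b * Q ^ (ε + (m + 1) * b) / (x * y) ^ (p * b)) ^
        (1 / (p * b)) := by gcongr
    _ = _ := by
        rw [Real.div_rpow (by positivity) (by positivity), ← Real.rpow_mul (by positivity),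
          mul_one_div_cancel hq.ne', Real.rpow_one,
          Real.mul_rpow (by positivity) (by positivity), ← Real.rpow_mul hQ.le, mul_one_div]
        field_simp

theorem line_sum {Q M : ℕ} (h : (Fin m → ℤ) × ℤ → ℝ≥0∞) (a : ℝ≥0∞)
    (E : ℕ → Finset ((Fin m → ℤ) × ℤ)) (hE : ∀ k z, z ∈ E k ↔ 2 ^ k * a ≤ h z)
    (hM : ∀ z, h z < 2 ^ M * a) (hQ : Q < 2 ^ M) (g : Line m) (s : ℤ) :
    ∑ r ∈ Finset.range Q, h (cell g r, s * Q + r) ≤ Q * a +
      ∑ k ∈ Finset.range M, ∑ j ∈ Finset.range M,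
        if 2 ^ j ≤ cnt (E k) Q g s then 2 ^ (k + 1) * 2 ^ (j + 1) * a else 0 := by
  classical
  refine (Finset.sum_le_sum fun r _ => split_height _ a M (hM _)).trans ?_
  rw [Finset.sum_add_distrib, Finset.sum_const, Finset.card_range, nsmul_eq_mul, Finset.sum_comm]
  refine add_le_add le_rfl (Finset.sum_le_sum fun k _ => ?_)
  have h1 : cnt (E k) Q g s < 2 ^ M :=
    lt_of_le_of_lt ((Finset.card_filter_le _ _).trans (Finset.card_range Q).le) hQ
  have h2 : ((cnt (E k) Q g s : ℕ) : ℝ≥0∞) ≤ ∑ j ∈ Finset.range M,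
      if 2 ^ j ≤ cnt (E k) Q g s then (2 : ℝ≥0∞) ^ (j + 1) else 0 := by
    exact_mod_cast split_count _ M h1
  simp only [← hE]
  rw [← Finset.sum_filter, Finset.sum_const, nsmul_eq_mul]
  have h3 : ((Finset.range Q).filter fun r : ℕ => (cell g r, s * Q + r) ∈ E k).card =
      cnt (E k) Q g s := by unfold cnt; congr
  rw [h3]
  refine (mul_le_mul_left h2 _).trans (le_of_eq ?_)
  rw [Finset.sum_mul]
  refine Finset.sum_congr rfl fun j _ => ?_
  split_ifs
  · ring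
  · simp

theorem max_of_gk {b p : ℝ} (hb : 1 ≤ b) (hp1 : 1 ≤ p) (hpn : p ≤ m + 1) (hK : GK m b (p * b))
    {ε : ℝ} (hε : 0 < ε) :
    ∃ C : ℝ, ∀ f : EuclideanSpace ℝ (Fin (m + 1)) → ℝ, AEMeasurable f volume →
      ∀ δ : ℝ, 0 < δ → δ < 1 →
      ∃ G : sphere (0 : EuclideanSpace ℝ (Fin (m + 1))) 1 → ℝ≥0∞, Measurable G ∧
        (∀ e, kakeyaMax δ f e ≤ G e) ∧
        eLpNorm G (ENNReal.ofReal (p * b)) volume.toSphere ≤
          ENNReal.ofReal (C * δ ^ (-((m + 1) / p - 1 + ε))) *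
            eLpNorm f (ENNReal.ofReal p) volume := by
  classical
  have hb0 : 0 < b := by linarith
  have hp0 : 0 < p := by linarith
  have hq1 : (1 : ℝ) ≤ p * b := one_le_mul_of_one_le_of_one_le hp1 hb
  have hq0 : (0 : ℝ) < p * b := by linarith
  set θ : ℝ := (m + 1) / p - 1 + ε with hθ
  have hθ1 : (m + 1) / p = (m + 1) * b / (p * b) := by field_simp
  have hθ2 : 0 ≤ (m + 1) / p - 1 := by
    rw [sub_nonneg, le_div_iff₀ hp0]; linarith
  have hθ0 : 0 ≤ θ := by linarith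
  obtain ⟨C₁, hC₁, hW⟩ := weak_of_gk hb hK (half_pos hε)
  obtain ⟨C₂, hC₂, hL⟩ := log_sq_le (half_pos hε)
  set σ : ℝ := ((volume : Measure (EuclideanSpace ℝ (Fin (m + 1)))).toSphere univ).toReal with hσ
  have hσ0 : 0 ≤ σ := ENNReal.toReal_nonneg
  set c : ℝ := 20 * (24 * (m + 1)) ^ (m + 1) with hc
  have hc0 : 0 < c := by positivity
  set A : ℝ := (C₁ * (2 ^ (m + 1)) ^ b) ^ (1 / (p * b)) with hA
  have hA0 : 0 < A := by positivity
  refine ⟨c * (σ ^ (1 / (p * b)) + (m + 1) ^ 3 * C₂ * 4 * A) * 2 ^ θ, fun f hf δ hδ0 hδ1 => ?_⟩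
  obtain ⟨F, hF, hFf⟩ : ∃ F : EuclideanSpace ℝ (Fin (m + 1)) → ℝ≥0∞, Measurable F ∧
      (fun y => ‖f y‖ₑ) =ᵐ[volume] F := ⟨_, hf.enorm.measurable_mk, hf.enorm.ae_eq_mk⟩
  have hmax : ∀ e, kakeyaMax δ f e = ⨆ a, (∫⁻ y in tube e.1 a δ, F y) / volume (tube e.1 a δ) :=
    fun e => iSup_congr fun a => by rw [lintegral_congr_ae (ae_restrict_of_ae hFf)]
  set a := eLpNorm f (ENNReal.ofReal p) volume with ha
  have hap : ∫⁻ y, F y ^ p = a ^ p := by
    rw [ha, eLpNorm_eq_lintegral_rpow_enorm_toReal (ENNReal.ofReal_pos.2 hp0).ne'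
      ENNReal.ofReal_ne_top, ENNReal.toReal_ofReal hp0.le, ← ENNReal.rpow_mul,
      one_div_mul_cancel hp0.ne', ENNReal.rpow_one]
    refine lintegral_congr_ae ?_
    filter_upwards [hFf] with y hy
    rw [← hy]
  by_cases hat : a = ∞
  · refine ⟨fun _ => ∞, measurable_const, fun _ => le_top, ?_⟩
    rw [hat, ENNReal.mul_top (ENNReal.ofReal_pos.2 (by positivity)).ne']
    exact le_top
  by_cases ha0 : a = 0
  · refine ⟨fun _ => 0, measurable_const, fun e => ?_, by simp⟩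
    rw [ha0, ENNReal.zero_rpow_of_pos hp0, lintegral_eq_zero_iff (hF.pow_const p)] at hap
    have h1 : F =ᵐ[volume] 0 := by
      filter_upwards [hap] with y hy
      simpa [hp0, hp0.le, not_lt.2 hp0.le] using hy
    rw [hmax]
    refine iSup_le fun x => ?_
    rw [lintegral_congr_ae (ae_restrict_of_ae h1)]
    simp
  set Q : ℕ := ⌈1 / δ⌉₊ with hQ
  have hQ1 : 1 / δ ≤ Q := Nat.le_ceil _
  have hδ2 : 1 < 1 / δ := by rw [lt_div_iff₀ hδ0]; linarith
  have hQ2 : 2 ≤ Q := by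
    have : (1 : ℝ) < Q := hδ2.trans_le hQ1
    exact_mod_cast this
  have hQ0 : 0 < Q := by omega
  have hQp : (0 : ℝ) < Q := by exact_mod_cast hQ0
  have hQ3 : (Q : ℝ) * δ ≤ 2 := by
    have : (Q : ℝ) < 1 / δ + 1 := Nat.ceil_lt_add_one (by positivity)
    rw [← le_div_iff₀ hδ0, show 2 / δ = 1 / δ + 1 / δ by ring]
    linarith
  have hQ4 : 1 / (Q : ℝ) ≤ δ := by
    rw [div_le_iff₀ hδ0] at hQ1
    rw [div_le_iff₀ hQp]; linarith
  set L : ℕ := Nat.log 2 Q + 1 with hLd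
  have hL1 : Q < 2 ^ L := Nat.lt_pow_succ_log_self one_lt_two Q
  have hL2 : 2 ^ L ≤ 2 * Q := by
    rw [hLd, pow_succ, mul_comm]
    exact Nat.mul_le_mul_left 2 (Nat.pow_log_le_self 2 hQ0.ne')
  set M : ℕ := (L + 1) * (m + 1) with hM
  have hM1 : (2 * Q) ^ (m + 1) < 2 ^ M := by
    rw [hM, pow_mul]
    exact Nat.pow_lt_pow_left (by rw [pow_succ]; omega) (by omega)
  have hM2 : Q < 2 ^ M :=
    lt_of_le_of_lt ((by omega : Q ≤ 2 * Q).trans (Nat.le_self_pow (by omega) _)) hM1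
  set V := ENNReal.ofReal ((2 * (6 / Q : ℝ)) ^ (m + 1)) with hV
  have hV0 : V ≠ 0 := (ENNReal.ofReal_pos.2 (by positivity)).ne'
  choose E hEc hE using fun i k => level_card hQ0 i hF hp1 ha0 hat hap k
  choose D hDm hDv hD using fun (t : Fin (m + 1) × ℕ × ℕ) =>
    hW Q (2 ^ t.2.2) t.1 (E t.1 t.2.1) hQ0 (by positivity)
  have htop : ∀ i z, (∫⁻ y in box Q i z, F y) / V < 2 ^ M * a := by
    intro i z
    by_contra hz
    have h1 : 0 < (E i M).card := Finset.card_pos.2 ⟨z, (hE i M z).2 (not_lt.1 hz)⟩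
    have h2 : (1 : ℝ) ≤ (E i M).card := by exact_mod_cast h1
    have h3 : (2 * Q : ℝ) ^ (m + 1) < 2 ^ M := by exact_mod_cast hM1
    have h4 : (2 : ℝ) ^ M ≤ ((2 : ℝ) ^ M) ^ p := Real.self_le_rpow_of_one_le
      (one_le_pow₀ one_le_two) hp1
    have h5 := h2.trans (hEc i M)
    rw [le_div_iff₀ (by positivity)] at h5
    linarith
  set S : Finset (Fin (m + 1) × ℕ × ℕ) := Finset.univ ×ˢ Finset.range M ×ˢ Finset.range M with hS
  let u : Fin (m + 1) × ℕ × ℕ → ℝ≥0∞ := fun t =>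
    ENNReal.ofReal (c / Q * (2 ^ (t.2.1 + 1) * 2 ^ (t.2.2 + 1))) * a
  have hSm : Measurable (∑ t ∈ S, (D t).indicator fun _ => u t :
      sphere (0 : EuclideanSpace ℝ (Fin (m + 1))) 1 → ℝ≥0∞) := by
    rw [Finset.sum_fn]
    exact Finset.measurable_sum _ fun t _ => measurable_const.indicator (hDm t)
  refine ⟨(fun _ => ENNReal.ofReal c * a) + ∑ t ∈ S, (D t).indicator fun _ => u t,
    measurable_const.add hSm, fun e => ?_, ?_⟩
  · have he : ‖e.1‖ = 1 := norm_eq_of_mem_sphere e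
    obtain ⟨i, -, hi⟩ := Finset.exists_max_image Finset.univ (fun j => |e.1 j|)
      Finset.univ_nonempty
    have hi' : ∀ j, |e.1 j| ≤ |e.1 i| := fun j => hi j (Finset.mem_univ j)
    set W : ℝ≥0∞ := Q * a + ∑ k ∈ Finset.range M, ∑ j ∈ Finset.range M,
      (D (i, k, j)).indicator (fun _ => 2 ^ (k + 1) * 2 ^ (j + 1) * a) e with hWd
    have h1 : ∀ x s, ∑ r ∈ Finset.range Q,
        ∫⁻ y in box Q i (cell (x, slope e.1 i) r, s * Q + r), F y ≤ W * V := by
      intro x s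
      have h2 := line_sum (fun z => (∫⁻ y in box Q i z, F y) / V) a (E i) (hE i) (htop i) hM2
        (x, slope e.1 i) s
      have h3 : ∑ r ∈ Finset.range Q,
          (∫⁻ y in box Q i (cell (x, slope e.1 i) r, s * Q + r), F y) / V ≤ W := by
        refine h2.trans (add_le_add le_rfl (Finset.sum_le_sum fun k _ =>
          Finset.sum_le_sum fun j _ => ?_))
        split_ifs with h4
        · rw [indicator_of_mem (hD (i, k, j) e hi' x s h4)]
        · exact zero_le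
      simp only [div_eq_mul_inv] at h3
      rwa [← Finset.sum_mul, ← div_eq_mul_inv,
        ENNReal.div_le_iff_le_mul (Or.inl hV0) (Or.inl ENNReal.ofReal_ne_top)] at h3
    have h5 : ENNReal.ofReal (c / Q) * W ≤ ((fun _ => ENNReal.ofReal c * a) +
        ∑ t ∈ S, (D t).indicator fun _ => u t :
          sphere (0 : EuclideanSpace ℝ (Fin (m + 1))) 1 → ℝ≥0∞) e := by
      rw [hWd, mul_add, ← mul_assoc, ← ENNReal.ofReal_natCast, ← ENNReal.ofReal_mul (by positivity),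
        div_mul_cancel₀ _ hQp.ne', Pi.add_apply, Finset.sum_apply, hS, Finset.sum_product]
      refine add_le_add le_rfl (le_trans (le_of_eq ?_) (Finset.single_le_sum
        (f := fun i => ∑ y ∈ Finset.range M ×ˢ Finset.range M,
          (D (i, y)).indicator (fun _ => u (i, y)) e) (fun _ _ => zero_le) (Finset.mem_univ i)))
      rw [Finset.sum_product, Finset.mul_sum]
      refine Finset.sum_congr rfl fun k _ => ?_
      rw [Finset.mul_sum]
      refine Finset.sum_congr rfl fun j _ => ?_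
      by_cases h6 : e ∈ D (i, k, j)
      · simp only [indicator_of_mem h6, u]
        rw [ENNReal.ofReal_mul (by positivity), ENNReal.ofReal_mul (by positivity),
          ENNReal.ofReal_pow (by norm_num), ENNReal.ofReal_pow (by norm_num), ENNReal.ofReal_ofNat]
        ring
      · simp [indicator_of_notMem h6]
    rw [hmax]
    refine iSup_le fun x => ENNReal.div_le_of_le_mul ?_
    obtain ⟨x', s, hcov⟩ := tube_cover he hi' x hQ0 hδ1 hQ3
    calc ∫⁻ y in tube e.1 x δ, F y ≤ ∑ u ∈ Finset.range 5, ∑ r ∈ Finset.range Q,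
          ∫⁻ y in box Q i (cell (x' u, slope e.1 i) r, s u * Q + r), F y :=
          (lintegral_mono_set hcov).trans ((lintegral_biUnion_finset_le _ _ _).trans
            (Finset.sum_le_sum fun u _ => lintegral_biUnion_finset_le _ _ _))
      _ ≤ ∑ _u ∈ Finset.range 5, W * V := Finset.sum_le_sum fun u _ => h1 _ _
      _ = ENNReal.ofReal (c / Q) * W *
          ENNReal.ofReal (Q / 4 * (1 / (2 * (m + 1) * Q)) ^ (m + 1)) := by
          rw [Finset.sum_const, Finset.card_range, nsmul_eq_mul, mul_right_comm,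
            ← ENNReal.ofReal_mul (by positivity), mul_left_comm, mul_comm, hV,
            ← ENNReal.ofReal_natCast, ← ENNReal.ofReal_mul (Nat.cast_nonneg _)]
          congr 2
          rw [hc, show (2 : ℝ) * (6 / Q) = 24 * (m + 1) * (1 / (2 * (m + 1) * Q)) by
            field_simp; norm_num, mul_pow]
          push_cast
          field_simp
          norm_num
      _ ≤ _ := mul_le_mul' h5 (tube_lower he x hQ2 hQ4)
  · have hq : (1 : ℝ≥0∞) ≤ ENNReal.ofReal (p * b) := ENNReal.one_le_ofReal.2 hq1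
    have hq' : ENNReal.ofReal (p * b) ≠ 0 := (ENNReal.ofReal_pos.2 hq0).ne'
    have h1 : ∀ t ∈ S, eLpNorm ((D t).indicator fun _ => u t) (ENNReal.ofReal (p * b))
        volume.toSphere ≤ ENNReal.ofReal
          (c / Q * 4 * (A * (Q : ℝ) ^ ((ε / 2 + (m + 1) * b) / (p * b)))) * a := by
      intro t _
      rw [eLpNorm_indicator_const (hDm t) hq' ENNReal.ofReal_ne_top, enorm_eq_self,
        ENNReal.toReal_ofReal hq0.le]
      refine (mul_le_mul_right (ENNReal.rpow_le_rpow (hDv t) (by positivity)) _).trans ?_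
      rw [ENNReal.ofReal_rpow_of_nonneg (by positivity) (by positivity), mul_right_comm,
        ← ENNReal.ofReal_mul (by positivity)]
      refine mul_le_mul_left (ENNReal.ofReal_le_ofReal ?_) _
      have h2 := term_le (ε := ε / 2) (x := 2 ^ t.2.1) (y := 2 ^ t.2.2) hb hp0 hC₁ (by positivity)
        (by positivity) hQp (Nat.cast_nonneg _) (hEc t.1 t.2.1)
      push_cast
      refine le_trans (le_of_eq ?_) (mul_le_mul_of_nonneg_left h2 (by positivity))
      ring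
    have h2 : (S.card : ℝ) ≤ (m + 1) ^ 3 * (C₂ * (Q : ℝ) ^ (ε / 2)) := by
      have h3 : (S.card : ℝ) = (m + 1) ^ 3 * ((L : ℝ) + 1) ^ 2 := by
        simp only [hS, Finset.card_product, Finset.card_range, Finset.card_univ, Fintype.card_fin,
          hM]
        push_cast; ring
      rw [h3]
      exact mul_le_mul_of_nonneg_left (hL Q L hQ0 hL2) (by positivity)
    refine (eLpNorm_add_le aestronglyMeasurable_const hSm.aestronglyMeasurable hq).trans ?_
    refine (add_le_add le_rfl ((eLpNorm_sum_le (fun t _ =>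
      (measurable_const.indicator (hDm t)).aestronglyMeasurable) hq).trans
        (Finset.sum_le_sum h1))).trans ?_
    rw [eLpNorm_const' _ hq' ENNReal.ofReal_ne_top, enorm_eq_self, ENNReal.toReal_ofReal hq0.le,
      ← ENNReal.ofReal_toReal (measure_ne_top volume.toSphere univ), ← hσ,
      ENNReal.ofReal_rpow_of_nonneg hσ0 (by positivity), mul_right_comm,
      ← ENNReal.ofReal_mul hc0.le, Finset.sum_const, nsmul_eq_mul, ← mul_assoc, ← add_mul,
      ← ENNReal.ofReal_natCast, ← ENNReal.ofReal_mul (Nat.cast_nonneg _),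
      ← ENNReal.ofReal_add (by positivity) (by positivity)]
    refine mul_le_mul_left (ENNReal.ofReal_le_ofReal ?_) _
    have hQ5 : (1 : ℝ) ≤ Q := by exact_mod_cast hQ0
    have h4 : (Q : ℝ) ^ θ ≤ 2 ^ θ * δ ^ (-θ) := by
      rw [Real.rpow_neg hδ0.le, ← div_eq_mul_inv, ← Real.div_rpow (by norm_num) hδ0.le]
      exact Real.rpow_le_rpow hQp.le (by rw [le_div_iff₀ hδ0]; exact hQ3) hθ0
    have h5 : (1 : ℝ) ≤ (Q : ℝ) ^ θ := Real.one_le_rpow hQ5 hθ0
    have h6 : (Q : ℝ) ^ (ε / 2) * (Q : ℝ) ^ ((ε / 2 + (m + 1) * b) / (p * b)) / Q ≤ (Q : ℝ) ^ θ := by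
      rw [← Real.rpow_add hQp, ← Real.rpow_sub_one hQp.ne']
      refine Real.rpow_le_rpow_of_exponent_le hQ5 ?_
      have : ε / 2 / (p * b) ≤ ε / 2 := div_le_self (by positivity) hq1
      rw [hθ, hθ1, add_div]
      linarith
    calc c * σ ^ (1 / (p * b)) +
          S.card * (c / Q * 4 * (A * (Q : ℝ) ^ ((ε / 2 + (m + 1) * b) / (p * b))))
        ≤ c * σ ^ (1 / (p * b)) * (Q : ℝ) ^ θ + (m + 1) ^ 3 * (C₂ * (Q : ℝ) ^ (ε / 2)) *
          (c / Q * 4 * (A * (Q : ℝ) ^ ((ε / 2 + (m + 1) * b) / (p * b)))) :=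
          add_le_add (le_mul_of_one_le_right (by positivity) h5)
            (mul_le_mul_of_nonneg_right h2 (by positivity))
      _ = c * σ ^ (1 / (p * b)) * (Q : ℝ) ^ θ + c * ((m + 1) ^ 3 * C₂ * 4 * A) *
          ((Q : ℝ) ^ (ε / 2) * (Q : ℝ) ^ ((ε / 2 + (m + 1) * b) / (p * b)) / Q) := by ring
      _ ≤ c * σ ^ (1 / (p * b)) * (Q : ℝ) ^ θ + c * ((m + 1) ^ 3 * C₂ * 4 * A) * (Q : ℝ) ^ θ := by
          gcongr
      _ = c * (σ ^ (1 / (p * b)) + (m + 1) ^ 3 * C₂ * 4 * A) * (Q : ℝ) ^ θ := by ring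
      _ ≤ _ := by
          rw [mul_assoc _ ((2 : ℝ) ^ θ)]
          gcongr

theorem max_of_kk {b : ℝ} (hb : 1 ≤ b) (hK : KK m b) {ε : ℝ} (hε : 0 < ε) :
    ∃ C : ℝ, ∀ f : EuclideanSpace ℝ (Fin (m + 1)) → ℝ, AEMeasurable f volume →
      ∀ δ : ℝ, 0 < δ → δ < 1 →
      ∃ G : sphere (0 : EuclideanSpace ℝ (Fin (m + 1))) 1 → ℝ≥0∞, Measurable G ∧
        (∀ e, kakeyaMax δ f e ≤ G e) ∧
        eLpNorm G (ENNReal.ofReal (m + b)) volume.toSphere ≤
          ENNReal.ofReal (C * δ ^ (-((m + 1) / (1 + m / b) - 1 + ε))) *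
            eLpNorm f (ENNReal.ofReal (1 + m / b)) volume := by
  have hb0 : 0 < b := by linarith
  have hm0 : (0 : ℝ) ≤ m := Nat.cast_nonneg m
  have hpb : (1 + m / b) * b = m + b := by field_simp; ring
  have := max_of_gk (p := 1 + m / b) hb (le_add_of_nonneg_right (by positivity))
    (by have := div_le_self hm0 hb; linarith) (hpb ▸ gk_of_kk hK) hε
  rwa [hpb] at this

end Pool.Agent.MP_5168f5_an.H42
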