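import Pool.Agent.MP_5168f5_an.H19.Defs

/-! From the discrete estimate in one slab to a net of all well shaded directions. -/

namespace Pool.Agent.MP_5168f5_an.H42

open Finset Pool.Agent.MP_5168f5_an.H19

variable {m : ℕ}

open Classical in
/-- The number of heights of the slab `s` at which the line `g` meets `E`. -/
noncomputable def cnt (E : Finset ((Fin m → ℤ) × ℤ)) (Q : ℕ) (g : Line m) (s : ℤ) : ℕ :=
  ((range Q).filter fun r : ℕ => (cell g r, s * Q + r) ∈ E).card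

theorem sum_rpow_le {ι : Type*} (S : Finset ι) (x : ι → ℝ) (hx : ∀ i, 0 ≤ x i) {b : ℝ}
    (hb : 1 ≤ b) : ∑ i ∈ S, x i ^ b ≤ (∑ i ∈ S, x i) ^ b := by
  have hT : 0 ≤ ∑ i ∈ S, x i := sum_nonneg fun i _ => hx i
  have e : ∀ y : ℝ, 0 ≤ y → y ^ b = y * y ^ (b - 1) := fun y hy => by
    rw [← Real.rpow_one_add' hy (by linarith)]; congr 1; ring
  rw [e _ hT, sum_mul]
  refine sum_le_sum fun i hi => ?_
  rw [e _ (hx i)]
  exact mul_le_mul_of_nonneg_left (Real.rpow_le_rpow (hx i)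
    (single_le_sum (fun j _ => hx j) hi) (by linarith)) (hx i)

theorem count_slabs {b C : ℝ} (hb : 1 ≤ b) (hC : 0 ≤ C) {Q l : ℕ} (hQ : 0 < Q)
    (h : ∀ (G : Finset (Line m)) (E : Finset (Pt m)), Sep Q G →
      (∀ g ∈ G, l ≤ (shade E (range Q) g).card) → (G.card : ℝ) ≤ C * (E.card : ℝ) ^ b)
    (G : Finset (Line m)) (E : Finset ((Fin m → ℤ) × ℤ)) (hG : Sep Q G)
    (hl : ∀ g ∈ G, ∃ s, l ≤ cnt E Q g s) : (G.card : ℝ) ≤ C * (E.card : ℝ) ^ b := by
  classical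
  choose! s hs using hl
  set S := G.image s with hS
  have hQ' : (0 : ℤ) < Q := by exact_mod_cast hQ
  let F : ℤ → Finset ((Fin m → ℤ) × ℤ) := fun t => E.filter fun z => z.2 / Q = t
  have h1 : ∀ t, ((G.filter fun g => s g = t).card : ℝ) ≤ C * ((F t).card : ℝ) ^ b := by
    intro t
    have h2 := h (G.filter fun g => s g = t) ((F t).image fun z => (z.1, (z.2 - t * Q).toNat))
      ⟨fun g hg => hG.1 g (mem_filter.1 hg).1,
        fun g hg g' hg' => hG.2 g (mem_filter.1 hg).1 g' (mem_filter.1 hg').1⟩ (fun g hg => by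
      obtain ⟨hg1, hg2⟩ := mem_filter.1 hg
      refine (hs g hg1).trans (card_le_card fun r hr => ?_)
      simp only [shade, mem_filter] at hr ⊢
      refine ⟨hr.1, mem_image.2 ⟨(cell g r, t * Q + r), mem_filter.2 ⟨hg2 ▸ hr.2, ?_⟩, by simp⟩⟩
      have h3 : (r : ℤ) < Q := by exact_mod_cast mem_range.1 hr.1
      simp only
      rw [add_comm, Int.add_mul_ediv_right _ _ hQ'.ne', Int.ediv_eq_zero_of_lt (by omega) h3,
        zero_add])
    refine h2.trans (mul_le_mul_of_nonneg_left (Real.rpow_le_rpow (by positivity) ?_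
      (by linarith)) hC)
    exact_mod_cast card_image_le
  have h4 : ∑ t ∈ S, ((F t).card : ℝ) ≤ E.card := by
    have : ∑ t ∈ S, (F t).card ≤ E.card := by
      rw [← card_biUnion (fun t _ t' _ htt => disjoint_filter.2 fun z _ h5 h6 =>
        htt (h5.symm.trans h6))]
      exact card_le_card (biUnion_subset.2 fun t _ => filter_subset _ _)
    exact_mod_cast this
  calc (G.card : ℝ) = ∑ t ∈ S, ((G.filter fun g => s g = t).card : ℝ) := by
        rw [card_eq_sum_card_image s G]; push_cast; rfl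
    _ ≤ ∑ t ∈ S, C * ((F t).card : ℝ) ^ b := sum_le_sum fun t _ => h1 t
    _ ≤ C * (∑ t ∈ S, ((F t).card : ℝ)) ^ b := by
        rw [← mul_sum]
        exact mul_le_mul_of_nonneg_left (sum_rpow_le _ _ (fun _ => by positivity) hb) hC
    _ ≤ _ := mul_le_mul_of_nonneg_left (Real.rpow_le_rpow
          (sum_nonneg fun _ _ => by positivity) h4 (by linarith)) hC

theorem exists_net {Q : ℕ} {B : ℝ} (P : Line m → Prop)
    (h : ∀ G : Finset (Line m), Sep Q G → (∀ g ∈ G, P g) → (G.card : ℝ) ≤ B) :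
    ∃ G : Finset (Line m), (G.card : ℝ) ≤ B ∧ (∀ g ∈ G, ∀ j, |g.2 j| ≤ 1) ∧
      ∀ g, P g → (∀ j, |g.2 j| ≤ 1) → ∃ g' ∈ G, ∀ j, (Q : ℝ) * |g.2 j - g'.2 j| ≤ 1 := by
  classical
  let T : Set ℕ := {k | ∃ G : Finset (Line m), Sep Q G ∧ (∀ g ∈ G, P g) ∧ G.card = k}
  have hne : T.Nonempty := ⟨0, ∅, ⟨by simp, by simp⟩, by simp, rfl⟩
  have hbd : BddAbove T := ⟨⌈B⌉₊, by
    rintro _ ⟨G, h1, h2, rfl⟩
    exact_mod_cast (h G h1 h2).trans (Nat.le_ceil B)⟩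
  obtain ⟨G, h1, h2, h3⟩ := Nat.sSup_mem hne hbd
  refine ⟨G, h G h1 h2, h1.1, fun g hg hg1 => ?_⟩
  by_contra hno
  push Not at hno
  have hnot : g ∉ G := fun hmem => by
    obtain ⟨j, hj⟩ := hno g hmem
    norm_num at hj
  have hmem : G.card + 1 ∈ T := by
    refine ⟨insert g G, ⟨?_, ?_⟩, ?_, card_insert_of_notMem hnot⟩
    · intro g' hg'
      rcases mem_insert.1 hg' with rfl | hg'
      exacts [hg1, h1.1 g' hg']
    · intro a ha a' ha' hne
      rcases mem_insert.1 ha with e | hb <;> rcases mem_insert.1 ha' with e' | hb'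
      · exact absurd (e.trans e'.symm) hne
      · obtain ⟨j, hj⟩ := hno a' hb'
        exact ⟨j, e ▸ hj.le⟩
      · obtain ⟨j, hj⟩ := hno a hb
        exact ⟨j, by rw [abs_sub_comm, e']; exact hj.le⟩
      · exact h1.2 a hb a' hb' hne
    · intro g' hg'
      rcases mem_insert.1 hg' with rfl | hg'
      exacts [hg, h2 g' hg']
  have := le_csSup hbd hmem
  omega

/-- The discrete estimate with exponent `b` on `E` and exponent `q` on the shading. -/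
def GK (m : ℕ) (b q : ℝ) : Prop :=
  ∀ ε : ℝ, 0 < ε → ∃ C : ℝ, 0 < C ∧ ∀ (Q l : ℕ) (G : Finset (Line m)) (E : Finset (Pt m)),
    0 < l → Sep Q G → (∀ g ∈ G, l ≤ (shade E (Finset.range Q) g).card) →
    (G.card : ℝ) ≤ C * (Q : ℝ) ^ ε * (Q : ℝ) ^ m * (E.card : ℝ) ^ b / (l : ℝ) ^ q

theorem gk_of_kk {b : ℝ} (hK : KK m b) : GK m b (m + b) := by
  intro ε hε
  obtain ⟨C, hC, h⟩ := hK ε hε
  refine ⟨C, hC, fun Q l G E hl hG hs => (h Q l G E hl hG hs).trans (le_of_eq ?_)⟩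
  have hl' : (0 : ℝ) < l := by exact_mod_cast hl
  rw [Real.div_rpow (Nat.cast_nonneg _) hl'.le, Real.rpow_add hl', Real.rpow_natCast, div_pow]
  field_simp

theorem net_of_gk {b q : ℝ} (hb : 1 ≤ b) (hK : GK m b q) {ε : ℝ} (hε : 0 < ε) :
    ∃ C : ℝ, 0 < C ∧ ∀ (Q l : ℕ) (E : Finset ((Fin m → ℤ) × ℤ)), 0 < Q → 0 < l →
      ∃ G : Finset (Line m),
        (G.card : ℝ) ≤ C * (Q : ℝ) ^ ε * (Q : ℝ) ^ m / (l : ℝ) ^ q * (E.card : ℝ) ^ b ∧
        (∀ g ∈ G, ∀ j, |g.2 j| ≤ 1) ∧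
        ∀ (g : Line m) (s : ℤ), l ≤ cnt E Q g s → (∀ j, |g.2 j| ≤ 1) →
          ∃ g' ∈ G, ∀ j, (Q : ℝ) * |g.2 j - g'.2 j| ≤ 1 := by
  obtain ⟨C, hC, h⟩ := hK ε hε
  refine ⟨C, hC, fun Q l E hQ hl => ?_⟩
  obtain ⟨G, h1, h2, h3⟩ := exists_net (Q := Q) (fun g => ∃ s, l ≤ cnt E Q g s) fun G hG hP =>
    count_slabs (C := C * (Q : ℝ) ^ ε * (Q : ℝ) ^ m / (l : ℝ) ^ q) hb (by positivity) hQ
      (fun G E hG hs => (h Q l G E hl hG hs).trans (le_of_eq (by ring))) G E hG hP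
  exact ⟨G, h1, h2, fun g s hs hg => h3 g ⟨s, hs⟩ hg⟩

end Pool.Agent.MP_5168f5_an.H42
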