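import Pool.Agent.MP_5168f5_an.H19.Iter
import Pool.Agent.MP_5168f5_an.H42.Max

/-! The endpoint exponent of the discrete maximal estimate. -/

namespace Pool.Agent.MP_5168f5_an.H42

open Pool.Agent.MP_5168f5_an.H19

variable {m : ℕ}

/-- The estimate passes to the infimum of the admissible exponents. -/
theorem kk_of_forall_gt {β : ℝ} (hβ : 0 ≤ β) (h : ∀ b, β < b → KK m b) : KK m β := by
  classical
  intro ε hε
  set η : ℝ := ε / (2 * (m + 1)) with hη
  have hη0 : 0 < η := by positivity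
  obtain ⟨C, hC, h1⟩ := h (β + η) (by linarith) (ε / 2) (by positivity)
  refine ⟨C * (3 : ℝ) ^ (ε / 2), by positivity, fun Q l G E hl hG hsh => ?_⟩
  rcases G.eq_empty_or_nonempty with rfl | ⟨g0, hg0⟩
  · simp only [Finset.card_empty, Nat.cast_zero]; positivity
  have hlQ : l ≤ Q := by
    refine (hsh g0 hg0).trans ?_
    have : shade E (Finset.range Q) g0 ⊆ Finset.range Q := Finset.filter_subset _ _
    simpa using Finset.card_le_card this
  have hlr : (1 : ℝ) ≤ l := by exact_mod_cast hl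
  have hQr : (1 : ℝ) ≤ Q := by exact_mod_cast (lt_of_lt_of_le hl hlQ)
  set E' := E ∩ (G ×ˢ Finset.range Q).image fun x => (cell x.1 x.2, x.2) with hE'
  have hsh' : ∀ g ∈ G, l ≤ (shade E' (Finset.range Q) g).card := by
    intro g hg
    refine (hsh g hg).trans (Finset.card_le_card fun r hr => ?_)
    obtain ⟨a1, a2⟩ := Finset.mem_filter.1 hr
    exact Finset.mem_filter.2 ⟨a1, Finset.mem_inter.2 ⟨a2,
      Finset.mem_image.2 ⟨(g, r), Finset.mem_product.2 ⟨hg, a1⟩, rfl⟩⟩⟩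
  have e1 : (E'.card : ℝ) ≤ E.card := by
    exact_mod_cast Finset.card_le_card Finset.inter_subset_left
  have e2 : E'.card ≤ (2 * Q + 1) ^ m * Q := by
    refine (Finset.card_le_card Finset.inter_subset_right).trans (Finset.card_image_le.trans ?_)
    rw [Finset.card_product, Finset.card_range]
    exact Nat.mul_le_mul_right _ hG.card_le
  have e3 : (E'.card : ℝ) ≤ (3 * Q : ℝ) ^ (m + 1) := by
    have h4 : (E'.card : ℝ) ≤ (2 * Q + 1 : ℝ) ^ m * Q := by exact_mod_cast e2
    refine h4.trans ?_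
    rw [pow_succ]
    exact mul_le_mul (pow_le_pow_left₀ (by positivity) (by linarith) m) (by linarith)
      (by positivity) (by positivity)
  have e4 : (E'.card : ℝ) / l ≤ (3 * Q : ℝ) ^ (m + 1) :=
    (div_le_self (Nat.cast_nonneg _) hlr).trans e3
  have e5 : ((E'.card : ℝ) / l) ^ η ≤ (3 : ℝ) ^ (ε / 2) * (Q : ℝ) ^ (ε / 2) := by
    refine (Real.rpow_le_rpow (by positivity) e4 hη0.le).trans (le_of_eq ?_)
    rw [← Real.rpow_natCast, ← Real.rpow_mul (by positivity),
      ← Real.mul_rpow (by positivity) (by positivity)]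
    congr 1
    rw [hη]; push_cast; field_simp
  have e6 : ((E'.card : ℝ) / l) ^ (β + η) ≤
      ((E.card : ℝ) / l) ^ β * ((3 : ℝ) ^ (ε / 2) * (Q : ℝ) ^ (ε / 2)) := by
    rw [Real.rpow_add' (by positivity) (by positivity)]
    gcongr
  have e7 : (Q : ℝ) ^ ε = (Q : ℝ) ^ (ε / 2) * (Q : ℝ) ^ (ε / 2) := by
    rw [← Real.rpow_add (by positivity)]; congr 1; ring
  calc (G.card : ℝ) ≤ C * (Q : ℝ) ^ (ε / 2) * ((E'.card : ℝ) / l) ^ (β + η) * ((Q : ℝ) / l) ^ m :=
        h1 Q l G E' hl hG hsh'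
    _ ≤ C * (Q : ℝ) ^ (ε / 2) * (((E.card : ℝ) / l) ^ β * ((3 : ℝ) ^ (ε / 2) * (Q : ℝ) ^ (ε / 2))) *
        ((Q : ℝ) / l) ^ m := by gcongr
    _ = _ := by rw [e7]; ring

/-- The discrete maximal estimate for every exponent from the root `1.67513...` on. -/
theorem kk_end (hm : 21 ≤ m) {β : ℝ} (hβ : 5 / 3 ≤ β) (hp : 0 ≤ β ^ 3 - 4 * β + 2) : KK m β := by
  refine kk_of_forall_gt (by linarith) fun b hb => kk_final hm (by linarith) ?_
  have : 0 < (b - β) * (b ^ 2 + b * β + β ^ 2 - 4) := mul_pos (by linarith) (by nlinarith)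
  nlinarith

end Pool.Agent.MP_5168f5_an.H42
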