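import Pool.Agent.MP_5168f5_an.H42.Disc
import Pool.Agent.MP_5168f5_an.H20.Defs

/-! Cubes, tubes and caps. -/

namespace Pool.Agent.MP_5168f5_an.H42

open MeasureTheory Set Metric Pool.Agent.MP_5168f5_an.H19 Pool.Agent.MP_5168f5_an.H20
open scoped ENNReal Pointwise

variable {n m : ℕ}

/-- A closed cube. -/
def cube (c : Fin n → ℝ) (r : ℝ) : Set (EuclideanSpace ℝ (Fin n)) := {y | ∀ j, |y j - c j| ≤ r}

theorem cube_eq (c : Fin n → ℝ) (r : ℝ) :
    cube c r = WithLp.ofLp ⁻¹' (Set.pi univ fun j => Icc (c j - r) (c j + r)) := by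
  ext y
  simp only [cube, mem_ofPred_eq, mem_preimage, mem_pi, mem_univ, true_imp_iff, mem_Icc, abs_le]
  exact forall_congr' fun j => ⟨fun h => ⟨by linarith [h.1], by linarith [h.2]⟩,
    fun h => ⟨by linarith [h.1], by linarith [h.2]⟩⟩

theorem measurableSet_cube (c : Fin n → ℝ) (r : ℝ) : MeasurableSet (cube c r) := by
  rw [cube_eq]
  exact (PiLp.volume_preserving_ofLp (Fin n)).measurable
    (MeasurableSet.univ_pi fun _ => measurableSet_Icc)

theorem volume_cube (c : Fin n → ℝ) {r : ℝ} (hr : 0 ≤ r) :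
    volume (cube c r) = ENNReal.ofReal ((2 * r) ^ n) := by
  rw [cube_eq, (PiLp.volume_preserving_ofLp (Fin n)).measure_preimage
    (MeasurableSet.univ_pi fun _ => measurableSet_Icc).nullMeasurableSet, volume_pi_pi]
  simp only [Real.volume_Icc]
  rw [Finset.prod_congr rfl fun j _ => show ENNReal.ofReal (c j + r - (c j - r)) =
    ENNReal.ofReal (2 * r) by congr 1; ring, Finset.prod_const, Finset.card_univ, Fintype.card_fin,
    ENNReal.ofReal_pow (by positivity)]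

theorem norm_le_of_coord {v : EuclideanSpace ℝ (Fin n)} {r : ℝ} (hr : 0 ≤ r)
    (h : ∀ j, |v j| ≤ r) : ‖v‖ ≤ n * r := by
  refine abs_le_of_sq_le_sq' ?_ (by positivity) |>.2
  rw [EuclideanSpace.real_norm_sq_eq]
  calc ∑ j, v j ^ 2 ≤ ∑ _j : Fin n, r ^ 2 :=
        Finset.sum_le_sum fun j _ => sq_le_sq' (abs_le.1 (h j)).1 (abs_le.1 (h j)).2
    _ = n * r ^ 2 := by simp
    _ ≤ (n * r) ^ 2 := by
        rw [mul_pow]
        refine mul_le_mul_of_nonneg_right ?_ (sq_nonneg _)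
        exact_mod_cast Nat.le_self_pow two_ne_zero n

theorem tube_lower {e : EuclideanSpace ℝ (Fin (m + 1))} (he : ‖e‖ = 1)
    (a : EuclideanSpace ℝ (Fin (m + 1))) {δ : ℝ} {Q : ℕ} (hQ : 2 ≤ Q) (hδ : 1 / (Q : ℝ) ≤ δ) :
    ENNReal.ofReal (Q / 4 * (1 / (2 * (m + 1) * Q)) ^ (m + 1)) ≤ volume (tube e a δ) := by
  have hQ0 : (2 : ℝ) ≤ Q := by exact_mod_cast hQ
  have hQp : (0 : ℝ) < Q := by linarith
  set ρ : ℝ := 1 / (4 * (m + 1) * Q) with hρ
  have hρ0 : 0 ≤ ρ := by positivity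
  let c : ℕ → EuclideanSpace ℝ (Fin (m + 1)) := fun k => a + ((k : ℝ) / Q) • e
  have hw : ∀ k, ∀ y ∈ cube (c k).ofLp ρ, ‖y - c k‖ ≤ 1 / (4 * Q) := fun k y hy => by
    refine (norm_le_of_coord (v := y - c k) hρ0 hy).trans (le_of_eq ?_)
    rw [hρ]; push_cast; field_simp
  have hsub : (⋃ k ∈ Finset.range (Q / 2), cube (c k).ofLp ρ) ⊆ tube e a δ := by
    intro y hy
    simp only [mem_iUnion, Finset.mem_range] at hy
    obtain ⟨k, hk, hy⟩ := hy
    have h1 := hw k y hy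
    set w := y - c k with hwd
    have h2 : y - a = ((k : ℝ) / Q) • e + w := by simp only [hwd, c]; abel
    have hee : inner ℝ e e = (1 : ℝ) := by rw [real_inner_self_eq_norm_sq, he]; norm_num
    have h3 : inner ℝ (y - a) e = (k : ℝ) / Q + inner ℝ w e := by
      rw [h2, inner_add_left, real_inner_smul_left, hee, mul_one]
    have h4 : |inner ℝ w e| ≤ 1 / (4 * Q) := by
      have := abs_real_inner_le_norm w e
      rw [he, mul_one] at this
      exact this.trans h1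
    have h5 : 2 * (k : ℝ) + 2 ≤ Q := by exact_mod_cast (by omega : 2 * k + 2 ≤ Q)
    have h6 : (k : ℝ) / Q + 1 / (4 * Q) ≤ 1 / 2 := by
      rw [div_add_div _ _ hQp.ne' (by positivity), div_le_div_iff₀ (by positivity) (by norm_num)]
      nlinarith
    have h7 : 0 ≤ (k : ℝ) / Q := by positivity
    have h8 : 1 / (4 * (Q : ℝ)) + 1 / (4 * Q) ≤ 1 / Q := by
      rw [← add_div, div_le_div_iff₀ (by positivity) hQp]; linarith
    refine ⟨?_, ?_⟩
    · rw [h3, abs_le]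
      have := abs_le.1 h4
      constructor <;> linarith [this.1, this.2]
    · have h9 : y - a - (inner ℝ (y - a) e) • e = w - (inner ℝ w e) • e := by
        rw [h3, h2]; module
      rw [h9]
      have h10 := norm_sub_le w ((inner ℝ w e) • e)
      rw [norm_smul, he, mul_one, Real.norm_eq_abs] at h10
      linarith
  have hdisj : (Finset.range (Q / 2) : Set ℕ).PairwiseDisjoint fun k => cube (c k).ofLp ρ := by
    intro k _ k' _ hkk
    refine Set.disjoint_left.2 fun y h1 h2 => ?_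
    have h3 : ‖c k - c k'‖ ≤ 1 / (4 * Q) + 1 / (4 * Q) := by
      have : c k - c k' = (y - c k') - (y - c k) := by abel
      rw [this]
      exact (norm_sub_le _ _).trans (add_le_add (hw k' y h2) (hw k y h1))
    have h4 : c k - c k' = (((k : ℝ) - k') / Q) • e := by simp only [c]; module
    have h5 : (1 : ℝ) ≤ |(k : ℝ) - k'| := by
      have : (1 : ℤ) ≤ |(k : ℤ) - k'| := Int.one_le_abs (by omega)
      exact_mod_cast this
    rw [h4, norm_smul, he, mul_one, Real.norm_eq_abs, abs_div, abs_of_pos hQp, ← add_div,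
      div_le_div_iff₀ hQp (by positivity)] at h3
    nlinarith
  refine le_trans ?_ (measure_mono hsub)
  rw [measure_biUnion_finset hdisj fun k _ => measurableSet_cube _ _]
  simp only [volume_cube _ hρ0, Finset.sum_const, Finset.card_range, nsmul_eq_mul]
  rw [← ENNReal.ofReal_natCast, ← ENNReal.ofReal_mul (Nat.cast_nonneg _)]
  refine ENNReal.ofReal_le_ofReal (mul_le_mul ?_ (le_of_eq ?_) (by positivity) (by positivity))
  · have : (Q : ℝ) ≤ 4 * ((Q / 2 : ℕ) : ℝ) := by exact_mod_cast (by omega : Q ≤ 4 * (Q / 2))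
    linarith
  · rw [hρ]; congr 1; field_simp; ring

/-- The slope of the direction `e` in the chart `i`. -/
noncomputable def slope (e : EuclideanSpace ℝ (Fin (m + 1))) (i : Fin (m + 1)) : Fin m → ℝ :=
  fun j => e (i.succAbove j) / e i

/-- The neighbourhood of a lattice point in the chart `i`. -/
def box (Q : ℕ) (i : Fin (m + 1)) (z : (Fin m → ℤ) × ℤ) : Set (EuclideanSpace ℝ (Fin (m + 1))) :=
  cube (i.insertNth (z.2 / Q : ℝ) fun j => (z.1 j / Q : ℝ)) (6 / Q)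

theorem mem_box {Q : ℕ} (hQ : 0 < Q) {i : Fin (m + 1)} {z : (Fin m → ℤ) × ℤ}
    {y : EuclideanSpace ℝ (Fin (m + 1))} :
    y ∈ box Q i z ↔ |Q * y i - z.2| ≤ 6 ∧ ∀ j, |Q * y (i.succAbove j) - z.1 j| ≤ 6 := by
  have hQp : (0 : ℝ) < Q := by exact_mod_cast hQ
  have h : ∀ s t : ℝ, |s - t / Q| ≤ 6 / Q ↔ |Q * s - t| ≤ 6 := fun s t => by
    rw [show s - t / Q = (Q * s - t) / Q by field_simp, abs_div, abs_of_pos hQp,
      div_le_div_iff_of_pos_right hQp]
  simp only [box, cube, mem_ofPred_eq]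
  rw [Fin.forall_iff_succAbove i]
  simp only [Fin.insertNth_apply_same, Fin.insertNth_apply_succAbove, h]

theorem chart_ne {e : EuclideanSpace ℝ (Fin (m + 1))} (he : ‖e‖ = 1) {i : Fin (m + 1)}
    (hi : ∀ j, |e j| ≤ |e i|) : e i ≠ 0 := fun h => by
  have := norm_le_of_coord (v := e) le_rfl fun j => by simpa [h] using hi j
  rw [he] at this
  norm_num at this

theorem abs_slope_le {e : EuclideanSpace ℝ (Fin (m + 1))} {i : Fin (m + 1)}
    (hi : ∀ j, |e j| ≤ |e i|) (j : Fin m) : |slope e i j| ≤ 1 := by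
  rw [slope, abs_div]
  exact div_le_one_of_le₀ (hi _) (abs_nonneg _)

theorem tube_cover {e : EuclideanSpace ℝ (Fin (m + 1))} (he : ‖e‖ = 1) {i : Fin (m + 1)}
    (hi : ∀ j, |e j| ≤ |e i|) (a : EuclideanSpace ℝ (Fin (m + 1))) {δ : ℝ} {Q : ℕ} (hQ : 0 < Q)
    (hδ : δ < 1) (hδQ : Q * δ ≤ 2) :
    ∃ (x : ℕ → Fin m → ℝ) (s : ℕ → ℤ), tube e a δ ⊆
      ⋃ u ∈ Finset.range 5, ⋃ r ∈ Finset.range Q,
        box Q i (cell (x u, slope e i) r, s u * Q + r) := by
  have hQp : (0 : ℝ) < Q := by exact_mod_cast hQ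
  have hQz : (0 : ℤ) < Q := by exact_mod_cast hQ
  have hne := chart_ne he hi
  refine ⟨fun u j => Q * (a (i.succAbove j) - a i * slope e i j) +
    ((⌊a i⌋ - 2 + u : ℤ) : ℝ) * Q * slope e i j, fun u => ⌊a i⌋ - 2 + u, fun y hy => ?_⟩
  obtain ⟨h1, h2⟩ := hy
  set t : ℝ := inner ℝ (y - a) e with ht
  set w := y - a - t • e with hw
  have hwj : ∀ j, |w j| ≤ δ := fun j => (PiLp.norm_apply_le w j).trans h2
  have hy : ∀ j, y j = a j + t * e j + w j := fun j => by simp [hw]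
  have hei : |e i| ≤ 1 := he ▸ PiLp.norm_apply_le e i
  have hte : |t * e i| ≤ 1 / 2 := by
    rw [abs_mul]; nlinarith [abs_nonneg t, abs_nonneg (e i)]
  set R : ℤ := ⌊Q * y i⌋ - (⌊a i⌋ - 2) * Q with hR
  have f1 := Int.floor_le (Q * y i)
  have f2 := Int.lt_floor_add_one (Q * y i)
  have f3 := Int.floor_le (a i)
  have f4 := Int.lt_floor_add_one (a i)
  have g1 := abs_le.1 hte
  have g2 := abs_le.1 (hwj i)
  have hR0 : 0 ≤ R := by
    rw [hR, sub_nonneg, Int.le_floor]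
    push_cast
    rw [mul_comm]
    exact mul_le_mul_of_nonneg_left (by linarith [hy i, g1.1, g2.1]) hQp.le
  have hR5 : R < 5 * Q := by
    rw [hR, sub_lt_iff_lt_add, Int.floor_lt]
    push_cast
    rw [← add_mul, mul_comm]
    exact mul_lt_mul_of_pos_right (by linarith [hy i, g1.2, g2.2]) hQp
  obtain ⟨u, hu⟩ := Int.eq_ofNat_of_zero_le (Int.ediv_nonneg hR0 hQz.le)
  obtain ⟨r, hr⟩ := Int.eq_ofNat_of_zero_le (Int.emod_nonneg R hQz.ne')
  have hdec : (Q : ℤ) * u + r = R := by rw [← hu, ← hr]; exact Int.mul_ediv_add_emod R Q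
  have hrQ : (r : ℤ) < Q := hr ▸ Int.emod_lt_of_pos R hQz
  have hu5 : (u : ℤ) < 5 := hu ▸ Int.ediv_lt_of_lt_mul hQz hR5
  have hfl : (⌊a i⌋ - 2 + u) * (Q : ℤ) + r = ⌊Q * y i⌋ := by rw [hR] at hdec; linarith
  have hfl' : ((⌊a i⌋ - 2 + u : ℤ) : ℝ) * Q + r = (⌊Q * y i⌋ : ℤ) := by exact_mod_cast hfl
  simp only [mem_iUnion, Finset.mem_range]
  refine ⟨u, by omega, r, by omega, (mem_box hQ).2 ⟨?_, fun j => ?_⟩⟩
  · simp only [hfl]
    rw [abs_le]; constructor <;> linarith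
  · simp only [cell]
    set d := slope e i j with hd
    have hd1 : |d| ≤ 1 := abs_slope_le hi j
    have hed : e (i.succAbove j) = e i * d := by rw [hd, slope]; field_simp
    set P : ℝ := Q * (a (i.succAbove j) - a i * d) + ((⌊a i⌋ - 2 + u : ℤ) : ℝ) * Q * d + r * d
      with hP
    have k1 : Q * y (i.succAbove j) - P =
        (Q * y i - (⌊Q * y i⌋ : ℤ)) * d - Q * w i * d + Q * w (i.succAbove j) := by
      rw [hP, ← hfl', hy (i.succAbove j), hy i, hed]; ring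
    have k2 : |(Q * y i - (⌊Q * y i⌋ : ℤ)) * d| ≤ 1 := by
      rw [abs_mul]
      exact mul_le_one₀ (abs_le.2 ⟨by linarith, by linarith⟩) (abs_nonneg _) hd1
    have k3 : ∀ k, |Q * w k| ≤ 2 := fun k => by
      rw [abs_mul, abs_of_pos hQp]
      exact (mul_le_mul_of_nonneg_left (hwj k) hQp.le).trans hδQ
    have k4 : |Q * w i * d| ≤ 2 := by
      rw [abs_mul]
      nlinarith [k3 i, abs_nonneg d, abs_nonneg (Q * w i)]
    have k5 := Int.floor_le P
    have k6 := Int.lt_floor_add_one P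
    have k7 := abs_le.1 k2
    have k8 := abs_le.1 k4
    have k9 := abs_le.1 (k3 (i.succAbove j))
    rw [abs_le]; constructor <;> linarith [k7.1, k7.2, k8.1, k8.2, k9.1, k9.2]

theorem sum_box_le {Q : ℕ} (hQ : 0 < Q) (i : Fin (m + 1)) (E : Finset ((Fin m → ℤ) × ℤ))
    {F : EuclideanSpace ℝ (Fin (m + 1)) → ℝ≥0∞} (hF : Measurable F) :
    ∑ z ∈ E, ∫⁻ y in box Q i z, F y ≤ 13 ^ (m + 1) * ∫⁻ y, F y := by
  classical
  have hb : ∀ z, MeasurableSet (box Q i z) := fun z => measurableSet_cube _ _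
  have hint : ∀ (s : ℝ) (k : ℤ), |s - k| ≤ 6 → k ∈ Finset.Icc (⌊s⌋ - 6) (⌊s⌋ + 6) := by
    intro s k h
    have h1 := abs_le.1 h
    have h2 := Int.floor_le s
    have h3 := Int.lt_floor_add_one s
    rw [Finset.mem_Icc]
    constructor
    · have : ((⌊s⌋ - 6 : ℤ) : ℝ) ≤ k := by push_cast; linarith [h1.2]
      exact_mod_cast this
    · have : (k : ℝ) < ((⌊s⌋ + 7 : ℤ) : ℝ) := by push_cast; linarith [h1.1]
      have : k < ⌊s⌋ + 7 := by exact_mod_cast this
      omega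
  simp_rw [← lintegral_indicator (hb _)]
  rw [← lintegral_finsetSum _ fun z _ => hF.indicator (hb z), ← lintegral_const_mul _ hF]
  refine lintegral_mono fun y => ?_
  have h1 : (E.filter fun z => y ∈ box Q i z).card ≤ 13 ^ (m + 1) := by
    have h2 : (E.filter fun z => y ∈ box Q i z) ⊆
        (Fintype.piFinset fun j => Finset.Icc (⌊Q * y (i.succAbove j)⌋ - 6)
          (⌊Q * y (i.succAbove j)⌋ + 6)) ×ˢ Finset.Icc (⌊Q * y i⌋ - 6) (⌊Q * y i⌋ + 6) := by
      intro z hz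
      have h3 := (mem_box hQ).1 (Finset.mem_filter.1 hz).2
      exact Finset.mem_product.2 ⟨Fintype.mem_piFinset.2 fun j => hint _ _ (h3.2 j), hint _ _ h3.1⟩
    refine (Finset.card_le_card h2).trans (le_of_eq ?_)
    have h4 : ∀ k : ℤ, (Finset.Icc (k - 6) (k + 6)).card = 13 := fun k => by
      rw [Int.card_Icc, show k + 6 + 1 - (k - 6) = 13 by ring]; rfl
    simp [Finset.card_product, Fintype.card_piFinset, h4, pow_succ]
  simp only [indicator_apply]
  rw [← Finset.sum_filter, Finset.sum_const, nsmul_eq_mul]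
  refine mul_le_mul_left ?_ _
  exact_mod_cast h1

/-- A cap of directions. -/
def cap (Q : ℕ) (i : Fin (m + 1)) (d : Fin m → ℝ) :
    Set (sphere (0 : EuclideanSpace ℝ (Fin (m + 1))) 1) :=
  {e | ∀ j, |e.1 (i.succAbove j) - e.1 i * d j| ≤ 1 / Q}

theorem measurableSet_cap (Q : ℕ) (i : Fin (m + 1)) (d : Fin m → ℝ) :
    MeasurableSet (cap Q i d) := by
  refine IsClosed.measurableSet ?_
  simp only [cap, ofPred_forall]
  exact isClosed_iInter fun j => isClosed_le (by fun_prop) continuous_const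

theorem mem_cap {Q : ℕ} (hQ : 0 < Q) {e : sphere (0 : EuclideanSpace ℝ (Fin (m + 1))) 1}
    {i : Fin (m + 1)} (hi : ∀ j, |e.1 j| ≤ |e.1 i|) {d : Fin m → ℝ}
    (h : ∀ j, (Q : ℝ) * |slope e.1 i j - d j| ≤ 1) : e ∈ cap Q i d := fun j => by
  have hQp : (0 : ℝ) < Q := by exact_mod_cast hQ
  have he : ‖e.1‖ = 1 := norm_eq_of_mem_sphere e
  have hne := chart_ne he hi
  have hei : |e.1 i| ≤ 1 := (PiLp.norm_apply_le e.1 i).trans he.le
  have h1 : e.1 (i.succAbove j) - e.1 i * d j = e.1 i * (slope e.1 i j - d j) := by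
    rw [slope]; field_simp
  rw [h1, abs_mul, le_div_iff₀ hQp]
  nlinarith [h j, abs_nonneg (e.1 i), abs_nonneg (slope e.1 i j - d j)]

theorem toSphere_cap {Q : ℕ} (hQ : 0 < Q) (i : Fin (m + 1)) {d : Fin m → ℝ}
    (hd : ∀ j, |d j| ≤ 1) :
    volume.toSphere (cap Q i d) ≤ ENNReal.ofReal ((m + 1) * 3 * 4 ^ (m + 1) / (Q : ℝ) ^ m) := by
  have hQp : (0 : ℝ) < Q := by exact_mod_cast hQ
  have hQ1 : (1 : ℝ) ≤ Q := by exact_mod_cast hQ
  rw [Measure.toSphere_apply' _ (measurableSet_cap Q i d), finrank_euclideanSpace_fin]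
  have hsub : Ioo (0 : ℝ) 1 • ((↑) '' cap Q i d : Set (EuclideanSpace ℝ (Fin (m + 1)))) ⊆
      ⋃ t ∈ Finset.Icc (-(Q : ℤ)) Q,
        cube (i.insertNth (t / Q : ℝ) fun j => (t / Q : ℝ) * d j) (2 / Q) := by
    rintro _ ⟨s, hs, _, ⟨e, he, rfl⟩, rfl⟩
    have hei : |e.1 i| ≤ 1 := (PiLp.norm_apply_le e.1 i).trans (norm_eq_of_mem_sphere e).le
    have h1 : |s * e.1 i| ≤ 1 := by
      rw [abs_mul, abs_of_pos hs.1]
      exact mul_le_one₀ hs.2.le (abs_nonneg _) hei
    have h2 := abs_le.1 h1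
    have f1 := Int.floor_le (Q * (s * e.1 i))
    have f2 := Int.lt_floor_add_one (Q * (s * e.1 i))
    have h3 : |s * e.1 i - (⌊Q * (s * e.1 i)⌋ : ℤ) / Q| ≤ 1 / Q := by
      rw [show s * e.1 i - (⌊Q * (s * e.1 i)⌋ : ℤ) / Q =
        (Q * (s * e.1 i) - (⌊Q * (s * e.1 i)⌋ : ℤ)) / Q by field_simp, abs_div, abs_of_pos hQp]
      gcongr
      exact abs_le.2 ⟨by linarith, by linarith⟩
    have h4 : (1 : ℝ) / Q + 1 / Q = 2 / Q := by ring
    have h5 : (0 : ℝ) < 1 / Q := by positivity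
    simp only [mem_iUnion]
    refine ⟨⌊Q * (s * e.1 i)⌋, Finset.mem_Icc.2 ⟨?_, ?_⟩, ?_⟩
    · rw [Int.le_floor]; push_cast; nlinarith [h2.1]
    · rw [Int.floor_le_iff]; push_cast; nlinarith [h2.2]
    · simp only [cube, mem_ofPred_eq]
      rw [Fin.forall_iff_succAbove i]
      simp only [Fin.insertNth_apply_same, Fin.insertNth_apply_succAbove, PiLp.smul_apply,
        smul_eq_mul]
      refine ⟨by linarith, fun j => ?_⟩
      have h6 : s * e.1 (i.succAbove j) - (⌊Q * (s * e.1 i)⌋ : ℤ) / Q * d j =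
          s * (e.1 (i.succAbove j) - e.1 i * d j) +
            (s * e.1 i - (⌊Q * (s * e.1 i)⌋ : ℤ) / Q) * d j := by ring
      rw [h6, ← h4]
      refine (abs_add_le _ _).trans (add_le_add ?_ ?_)
      · rw [abs_mul, abs_of_pos hs.1]
        exact (mul_le_of_le_one_left (abs_nonneg _) hs.2.le).trans (he j)
      · rw [abs_mul]
        exact (mul_le_of_le_one_right (abs_nonneg _) (hd j)).trans h3
  refine (mul_le_mul_right ((measure_mono hsub).trans (measure_biUnion_finset_le _ _)) _).trans ?_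
  simp only [volume_cube _ (show (0 : ℝ) ≤ 2 / Q by positivity), Finset.sum_const, nsmul_eq_mul]
  rw [← ENNReal.ofReal_natCast, ← ENNReal.ofReal_natCast, ← ENNReal.ofReal_mul (Nat.cast_nonneg _),
    ← ENNReal.ofReal_mul (Nat.cast_nonneg _)]
  refine ENNReal.ofReal_le_ofReal ?_
  have h1 : ((Finset.Icc (-(Q : ℤ)) Q).card : ℝ) ≤ 3 * Q := by
    have : (Finset.Icc (-(Q : ℤ)) Q).card ≤ 3 * Q := by rw [Int.card_Icc]; omega
    exact_mod_cast this
  calc _ ≤ ((m + 1 : ℕ) : ℝ) * (3 * Q * (2 * (2 / Q)) ^ (m + 1)) := by gcongr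
    _ = _ := by
        rw [show (2 : ℝ) * (2 / Q) = 4 / Q by ring, div_pow]
        push_cast; field_simp; ring

end Pool.Agent.MP_5168f5_an.H42
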